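import Pool.Agent.Y691.Mn

/-!
# Beilinson's equality over the fields between `K` and `M`: a law for the divisions of Frobenius

`X` is a smooth projective variety of dimension `2i + 1` over the number field `K`, and `M/K` is a
finite Galois extension with group `G`.  The first terms of the theorem are unconditional statements
on the distribution of the traces of Frobenius on `H^{2i+1}(X)` among the divisions of `G`: for every
angle `c > π/2` the smoothed central sum over the division of `σ` is `-κ_σ log T + A + O(1/T)`, without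
any hypothesis on zeros and poles of the `L`-functions, real or complex.  The rational numbers `κ_σ`
carry exactly the same information as the orders of `L(H^{2i+1}(X_F), s)` at `s = i + 1` over all
fields `F` between `K` and `M`.  Beilinson's equality over all these `F` is the case
`V = CH^{i+1}(X_M)_0 ⊗ ℚ` of the last equivalence, the space of invariants of `Gal(M/F)` being
`CH^{i+1}(X_F)_0 ⊗ ℚ`.
-/

set_option autoImplicit false

namespace Pool.Agent.Results.MP_6dc9d1_nt.DivisionLaw

open NumberField IsDedekindDomain Filter Topology Asymptotics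
open Pool.Agent.Y691

theorem result {K M : Type} [Field K] [NumberField K] [Field M] [NumberField M] [Algebra K M]
    [IsGalois K M] {n : ℕ} (X : Set (MvPolynomial (Fin n) (𝓞 K))) (i N : ℕ)
    (S : Finset (HeightOneSpectrum (𝓞 K))) (α : HeightOneSpectrum (𝓞 K) → Fin N → ℂ)
    (hα : ∀ v ∉ S, IsFrobenius X i v (α v)) (hS : ∀ v ∉ S, Unramified M v)
    (Λ : IntermediateField K M → ℂ → ℂ)
    (hΛ : ∀ F : IntermediateField K M, IsLFunction X i N F (Λ F)) :
    (∀ (c T : ℝ) (σ : Gal(M/K)), 0 < T → Summable fun x => ‖frobTerm S α i c σ T x‖) ∧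
    ∃ (m : IntermediateField K M → ℤ) (χ : Gal(M/K) → ℚ),
      (∀ F, meromorphicOrderAt (Λ F) (i + 1) = m F) ∧
      (∀ F, (m F : ℚ) = (∑ᶠ σ : F.fixingSubgroup, χ σ) / Nat.card F.fixingSubgroup) ∧
      (∀ c : ℝ, Real.pi / 2 < c → ∀ σ, ∃ A : ℂ,
        (fun T : ℝ => frobSum S α i c σ T + divMean χ σ * Real.log T - A) =O[atTop]
          fun T : ℝ => 1 / T) ∧
      ∀ (V : Type) [AddCommGroup V] [Module ℚ V] [FiniteDimensional ℚ V]
        (ρ : Representation ℚ Gal(M/K) V) (c : ℝ), Real.pi / 2 < c →
        ((∀ F, m F = Module.finrank ℚ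
            (Representation.invariants (ρ.comp F.fixingSubgroup.subtype))) ↔
          ∀ σ, Tendsto (fun T : ℝ => frobSum S α i c σ T / Real.log T) atTop
            (𝓝 (-(divMean (fun τ => LinearMap.trace ℚ V (ρ τ)) σ : ℂ)))) :=
  main hα hS Λ hΛ

end Pool.Agent.Results.MP_6dc9d1_nt.DivisionLaw
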