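import Pool.Agent.Y690.Asm2
import Pool.Agent.W765.HK.Pair
import Pool.Agent.W216.CY.Div
import Pool.Agent.W287.HK.Basic
import Pool.Agent.W571.HK.Cls
import Pool.Agent.W53.HK.Fp
import Pool.Agent.W366.HK.Fpr
import Pool.Agent.W585.HK.LAT
import Pool.Agent.W692.HK.Ker
import Pool.Agent.W584.HK.CNT
import Pool.Agent.W513.HK.Divr
import Pool.Agent.W822.HK.MU
import Pool.Agent.W240.HK.Count
import Pool.Agent.W856.HK.Dec
import Pool.Agent.W636.HK.Gauss
import Pool.Agent.W348.HK.Pois
import Pool.Agent.W29.HK.Prod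

/-!
# Bounded analytic ranks in the Beilinson–Bloch conjecture over multiple prime towers

`K` is an imaginary quadratic field with ring of integers `R` (any class number), `X` a smooth
projective variety over `K` and `m ≥ 1` such that `V = H^(2m-1)(X)` is a direct sum of `n` Hecke
characters `θ i` of `K`, of infinity types `(a i, b i)` with `a i + b i = 2 m - 1` (products of
elliptic curves with complex multiplication by `K`, Fermat hypersurfaces of degree `3`, `4`, `6`, ...).

Let `c` be a product of powers of prime ideals of degree one over distinct odd primes `p`, ramified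
ones with exponent one, prime to the conductors of the `θ i`; equivalently `R = ℤ + c` and the norm
of `c` is odd.  We bound the order of vanishing at `s = m` of the `L`-function of `V` over the ray
class field `K(c)`, which by the Beilinson–Bloch conjecture is the rank of `CH^m(X / K(c))_hom`, by a
polynomial in `m`, the conductors and the RADICAL of the norm of `c`.  In particular it is bounded in
the extension `K(P_1^∞ ⋯ P_r^∞)`, whose Galois group has an open subgroup `ℤ_{p_1} × ⋯ × ℤ_{p_r}`.
-/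

set_option autoImplicit false

open Complex IsDedekindDomain

namespace Pool.Agent.Y690.Old.MultiPrimeTowers

/-- The norm `N(I)` of an ideal (`0` for the zero ideal, whose residue ring is infinite). -/
noncomputable def norm {R : Subring ℂ} (I : Ideal R) : ℕ := Nat.card (R ⧸ I)

/-- The radical of a natural number, the product of its prime divisors. -/
def rad (q : ℕ) : ℕ := ∏ p ∈ q.primeFactors, p

/-- `θ`, a function on the ideals of `R`, is a primitive Hecke character of conductor `f` and infinity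
type `(a, b)`: it is multiplicative, vanishes exactly at the zero ideal and the ideals not prime to
`f`, satisfies `θ((α)) = α ^ a * conj α ^ b` for `α ≡ 1 mod f`, and this fails for every strictly
larger ideal `f'` in place of `f`. -/
structure IsHecke {R : Subring ℂ} (a b : ℕ) (f : Ideal R) (θ : Ideal R → ℂ) : Prop where
  ne_bot : f ≠ ⊥
  mul : ∀ I J : Ideal R, θ (I * J) = θ I * θ J
  eq_zero : ∀ I : Ideal R, θ I = 0 ↔ (I = ⊥ ∨ ¬ IsCoprime I f)
  principal : ∀ α : R, α ≠ 0 → α - 1 ∈ f →
    θ (Ideal.span {α}) = (α : ℂ) ^ a * (starRingEnd ℂ) (α : ℂ) ^ b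
  primitive : ∀ f' : Ideal R, f < f' → ∃ α : R, α ≠ 0 ∧ α - 1 ∈ f' ∧
    IsCoprime (Ideal.span {α}) f ∧ θ (Ideal.span {α}) ≠ (α : ℂ) ^ a * (starRingEnd ℂ) (α : ℂ) ^ b

/-- The characters of the ray class group modulo `c`, i.e. of the Galois group of the ray class field
modulo `c`, as primitive characters of conductor dividing `c`. -/
def RayClassCharacters {R : Subring ℂ} (c : Ideal R) : Set (Ideal R → ℂ) :=
  {χ | ∃ d : Ideal R, d ∣ c ∧ IsHecke 0 0 d χ}

/-- `L` is the `L`-function, over the ray class field modulo `c`, of the direct sum of the Hecke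
characters `θ i` of weight `2 m - 1`: an entire function, for `Re s > m + 1/2` equal to its Euler
product, whose factor at the prime ideal `q` of `R` is the product of the factors at the primes of
the ray class field above `q`. -/
def IsLFunction {R : Subring ℂ} {n : ℕ} (m : ℕ) (θ : Fin n → Ideal R → ℂ) (c : Ideal R)
    (L : ℂ → ℂ) : Prop :=
  Differentiable ℂ L ∧ ∀ s : ℂ, (m : ℝ) + 1 / 2 < s.re →
    HasProd (fun q : HeightOneSpectrum R => ∏ᶠ χ ∈ RayClassCharacters c,
      ∏ i, (1 - θ i q.asIdeal * χ q.asIdeal * (norm q.asIdeal : ℂ) ^ (-s))⁻¹) (L s)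

theorem isHecke_iff {R : Subring ℂ} (a b : ℕ) (f : Ideal R) (θ : Ideal R → ℂ) :
    IsHecke a b f θ ↔ Pool.Agent.Y690.HT a b f θ :=
  ⟨fun h => ⟨h.ne_bot, h.mul, h.eq_zero, h.principal, h.primitive⟩,
    fun h => ⟨h.ne, h.mul, h.zero, h.princ, h.prim⟩⟩

theorem chars_eq {R : Subring ℂ} (c : Ideal R) :
    RayClassCharacters c = Pool.Agent.Y690.XC c := by
  ext χ
  constructor
  · rintro ⟨d, hd, h⟩
    refine ⟨d, hd, h.ne_bot, h.mul, h.eq_zero, fun α h1 h2 => ?_, fun f' hf => ?_⟩
    · rw [h.principal α h1 h2, pow_zero, pow_zero, one_mul]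
    · obtain ⟨α, h1, h2, h3, h4⟩ := h.primitive f' hf
      refine ⟨α, h1, h2, h3, ?_⟩
      rwa [pow_zero, pow_zero, one_mul] at h4
  · rintro ⟨d, hd, h⟩
    refine ⟨d, hd, h.ne, h.mul, h.zero, fun α h1 h2 => ?_, fun f' hf => ?_⟩
    · rw [h.princ α h1 h2, pow_zero, pow_zero, one_mul]
    · obtain ⟨α, h1, h2, h3, h4⟩ := h.prim f' hf
      refine ⟨α, h1, h2, h3, ?_⟩
      rwa [pow_zero, pow_zero, one_mul]

/-- **Main theorem.** Let `R = ℤ + ℤ ω` be a subring of `ℂ` that is a lattice and a Dedekind domain,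
the ring of integers of an imaginary quadratic field `K`.  For every `ε > 0` there is a constant `C`,
depending on `K` and `ε` only, such that the following holds for every `m ≥ 1`, all primitive
Hecke characters `θ 1, ..., θ n` of `K` of infinity types `(a i, b i)` with `a i + b i = 2 m - 1`,
whose conductors have norms at most `N`, and all nonzero ideals `c` of odd norm `q`, prime to the
conductors, such that every residue class modulo `c` contains a rational integer: the `L`-function of
the direct sum of the `θ i` over the ray class field modulo `c` exists and, `r` being the radical of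
`q`, its order of vanishing at the centre `s = m` is at most
`C n (r ((N q) ^ (2/3) + (m N q) ^ (1/2))) ^ (1 + ε)` and at most
`C n (r ((N r) ^ 2 + m N r)) ^ (1 + ε)`. -/
theorem result (R : Subring ℂ) (ω : ℂ) (hω : 0 < ω.im)
    (hR : ∀ z : ℂ, z ∈ R ↔ ∃ x y : ℤ, z = x + y * ω) (hded : IsDedekindDomain R)
    (ε : ℝ) (hε : 0 < ε) :
    ∃ C : ℝ, ∀ (m n : ℕ) (a b : Fin n → ℕ) (f : Fin n → Ideal R) (θ : Fin n → Ideal R → ℂ)
      (N : ℝ), 1 ≤ m → (∀ i, a i + b i = 2 * m - 1) → (∀ i, IsHecke (a i) (b i) (f i) (θ i)) →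
      (∀ i, (norm (f i) : ℝ) ≤ N) →
      ∀ c : Ideal R, c ≠ ⊥ → Odd (norm c) → (∀ α : R, ∃ k : ℤ, α - k ∈ c) →
        (∀ i, IsCoprime (f i) c) →
        (RayClassCharacters c).Finite ∧ ∃ L : ℂ → ℂ, IsLFunction m θ c L ∧
          analyticOrderAt L m ≠ ⊤ ∧
          (analyticOrderNatAt L m : ℝ) ≤ C * n * (rad (norm c) *
            ((N * norm c) ^ (2 / 3 : ℝ) + (m * N * norm c) ^ (1 / 2 : ℝ))) ^ (1 + ε) ∧
          (analyticOrderNatAt L m : ℝ) ≤ C * n * (rad (norm c) *
            ((N * rad (norm c)) ^ 2 + m * N * rad (norm c))) ^ (1 + ε) := by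
  have hbasic := Pool.Agent.W287.HK.h_basic
  have hcls := Pool.Agent.W571.HK.h_cls hbasic
  have hfp := Pool.Agent.W53.HK.h_fp hbasic hcls
  have hfpr := Pool.Agent.W366.HK.h_fpr hbasic hcls
  have hlat := Pool.Agent.W585.HK.h_lat hbasic
  have hker := Pool.Agent.W692.HK.h_ker hbasic hcls hfpr
  have hcnt := Pool.Agent.W584.HK.h_cnt hbasic hcls hfpr hlat hker
  have hdivr := Pool.Agent.W513.HK.h_divr hbasic
  have hmu := Pool.Agent.W822.HK.h_mu hbasic
  have hcount := Pool.Agent.W240.HK.h_count hbasic hcnt hdivr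
  have hdiv := Pool.Agent.W216.CY.t_div
  have hdec := Pool.Agent.W856.HK.h_dec hbasic
  have hgauss := Pool.Agent.W636.HK.h_gauss hbasic hfp
  have hpois := Pool.Agent.W348.HK.h_pois hbasic
  have htheta := Pool.Agent.TH936.HK.h_theta hbasic hfp hdec hgauss hpois hcnt
  have hafe := Pool.Agent.TH936.HK.h_afe hbasic hfp hcnt hgauss htheta
  have htail := Pool.Agent.Y683.tailz hbasic hcnt hcount
  have hmain := Pool.Agent.Y683.mainb hbasic hcnt hdivr htail
  have hdual := Pool.Agent.Y683.dualb hdiv hbasic hcnt hker hfpr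
  have hfin := Pool.Agent.Y683.finb hdiv hbasic hcnt hmu hmain hdual
  have hprod := Pool.Agent.W29.HK.h_prod hbasic hfp
  have hQ : Pool.Agent.W192.HK.QR R ω := ⟨hω, hR, hded⟩
  obtain ⟨C, -, H⟩ := Pool.Agent.Y690.family2 hbasic hcls hcnt hfpr hfp hdec hgauss htheta hafe
    hprod hfin hQ ε hε
  refine ⟨C, fun m n a b f θ N hm hab hθ hN c hc hodd hint hfc => ?_⟩
  obtain ⟨h1, L, h2, h3, h4, h5, h6⟩ := H m n a b f θ N hm hab
    (fun i => (isHecke_iff _ _ _ _).1 (hθ i)) hN c (norm c) hc ⟨rfl, hint⟩ hodd hfc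
  refine ⟨by rw [chars_eq]; exact h1, L, ⟨h2, ?_⟩, h4, h5, h6⟩
  rw [chars_eq]
  intro s hs
  have h7 := h3 s hs
  have h8 : ∀ I : Ideal R, ((Pool.Agent.W192.HK.nm I : ℝ) : ℂ) = (norm I : ℂ) := by
    intro I
    rw [Pool.Agent.W192.HK.nm, norm]
    push_cast
    rfl
  simp only [h8] at h7
  exact h7

end Pool.Agent.Y690.Old.MultiPrimeTowers
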